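import Pool.Agent.N84.MD.BC
import Pool.Agent.Results.MP_d639b3_nt.ExchangeableConstants

/-!
# Chowla's conjecture for `f(n) (α n + h q)`, `q` near the first digits of almost every real number

The theorem `ExchangeableConstants` of this page (helper625) considers the polynomials `f(T) (α T + h q)`, `q` near
`c + κ v`, where the law of the random integer `v < b ^ k` has exchangeable blocks of digits: with a probability of at
least `1 - 1 / k ^ U` the sums of the Liouville function over their values are small for all these `q` and `h`. Here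
`v = X k` is the member with the number `k` of a sequence of random integers on one probability space, for example the
integer formed by the first `k` digits of a random real number. Almost surely the sums are small for ALL `q` and `h`,
for ALL large `k` and for all the parameters at once. This applies

* to almost every real number `ξ` in `[0, 1)` and the integers `q` at a distance of at most `k ^ W` from `c_k + κ [b ^ k ξ]`;
* to almost every point `ξ` with respect to any measure for which the first `k` digits have exchangeable blocks: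
  Bernoulli and Markov measures, for example almost every point of the Cantor set with respect to the Cantor measure.

So for a sequence of polynomials as sparse as the truncations of one real number there are no exceptions from some point
on. The pairs `(f, α)` may depend on `k`, there may be `k ^ T₁` of them; in particular (first `k` pairs of an enumeration)
the theorem holds for all `f` in `ℤ[T]` and all `α ≥ 1` at once.
-/

set_option autoImplicit false

open Filter MeasureTheory Finset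
open scoped ENNReal

namespace Pool.Agent.N84.Shelf.ChowlaNearRealNumbers

open Pool.Agent.Results.MP_d639b3_nt.ExchangeableConstants (Small Exchangeable begins)

/-- For all `κ ≠ 0`, `B'`, `T`, `J`, `W` and `U` and for all large `k`: for all integers `q` at a distance of at most `k ^ W`
from `c_k + κ x_k` and all `1 ≤ h ≤ k ^ J` the sums of `λ(f(n) (α n + h q))`, for the pairs `(f, α)` with the number `k`,
are small: `Small B' T U (b ^ k) k (f k) (α k) (h q)`. -/
def Always (b : ℕ) (c : ℕ → ℤ) (M : ℕ → ℕ) (f : ∀ k, Fin (M k) → Polynomial ℤ) (α : ∀ k, Fin (M k) → ℕ)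
    (x : ℕ → ℕ) : Prop :=
  ∀ (κ : ℤ) (B' T J W U : ℕ), κ ≠ 0 → ∀ᶠ k : ℕ in atTop, ∀ q : ℤ, |q - (c k + κ * x k)| ≤ (k : ℤ) ^ W →
    ∀ h : ℕ, 1 ≤ h → h ≤ k ^ J → Small B' T U (b ^ k) k (f k) (α k) (h * q)

/-- smaller `T` and `U` are weaker -/
theorem small_mono {B T T' U U' N k M : ℕ} {f : Fin M → Polynomial ℤ} {α : Fin M → ℕ} {h : ℤ} (hk : 1 ≤ k)
    (hT : T ≤ T') (hU : U ≤ U') (hs : Small B T' U' N k f α h) : Small B T U N k f α h := by
  intro l q hq1 hq2 r u v hu hv
  refine (hs l q hq1 (hq2.trans (Nat.pow_le_pow_right hk hT)) r u v hu hv).trans ?_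
  have hk1 : (1 : ℝ) ≤ k := by exact_mod_cast hk
  exact div_le_div_of_nonneg_left (Nat.cast_nonneg N) (by positivity) (pow_le_pow_right₀ hk1 hU)

/-- the uniform distribution has exchangeable digits -/
theorem exch_unif (b : ℕ) (hb : 2 ≤ b) (k : ℕ) (p : ℕ → ℝ) (hp : ∀ v < b ^ k, p v = 1 / (b : ℝ) ^ k)
    (hp0 : ∀ v, 0 ≤ p v) : Exchangeable b 1 (1 / b) 0 k p := by
  have hb0 : (0 : ℝ) < b := by exact_mod_cast (by omega : 0 < b)
  have hbk : (0 : ℝ) < (b : ℝ) ^ k := by positivity
  have hsum : ∀ f : ℕ → ℝ, (∀ v < b ^ k, f v = 1 / (b : ℝ) ^ k) → ∑ v ∈ range (b ^ k), f v = 1 := by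
    intro f hf
    rw [sum_congr rfl fun v hv => hf v (mem_range.1 hv), sum_const, card_range, nsmul_eq_mul]
    push_cast
    field_simp
  refine ⟨hp0, hsum p hp, fun _ => 1 / (b : ℝ) ^ k, fun _ => by positivity, hsum _ fun _ _ => rfl, ?_, ?_⟩
  · intro v hv
    rw [hp v hv, pow_zero, one_mul]
  · intro i u hi hu
    obtain ⟨n, hn⟩ : ∃ n, k = i + 1 + n := ⟨k - (i + 1), by omega⟩
    have e1 : k - (i + 1) = n := by omega
    have e2 : k - i = n + 1 := by omega
    have hlt : ∀ a, a < b → ∀ w, w < b ^ n → (b ^ 1 * u + a) * b ^ n + w < b ^ k := by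
      intro a ha w hw
      have h1 : b ^ 1 * u + a + 1 ≤ b ^ (i + 1) := by
        rw [pow_one, pow_succ]
        nlinarith
      calc (b ^ 1 * u + a) * b ^ n + w < (b ^ 1 * u + a) * b ^ n + b ^ n := by omega
        _ = (b ^ 1 * u + a + 1) * b ^ n := by ring
        _ ≤ b ^ (i + 1) * b ^ n := Nat.mul_le_mul_right _ h1
        _ = b ^ k := by rw [hn, pow_add b (i + 1) n]
    have hbeg : ∀ j u', begins b k (fun _ => 1 / (b : ℝ) ^ k) j u' = (b : ℝ) ^ (k - j) * (1 / (b : ℝ) ^ k) := by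
      intro j u'
      unfold ExchangeableConstants.begins
      rw [sum_const, card_range, nsmul_eq_mul]
      push_cast
      rfl
    refine ⟨0, 1, 1, one_pos, by rw [pow_one]; omega, ?_, ?_, ?_, ?_, ?_⟩
    · rw [div_le_one hb0]
      exact_mod_cast (by omega : 1 ≤ b)
    · rw [mul_one, div_le_one hb0]
      exact_mod_cast (by omega : 1 ≤ b)
    · intro w hw
      rw [e1] at hw ⊢
      rw [hp _ (hlt 0 (by omega) w hw), hp _ (hlt 1 (by omega) w hw), one_mul]
    · rw [hbeg, hbeg, e1, e2, pow_succ]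
      apply le_of_eq
      field_simp
    · rw [hbeg, hbeg, e1, e2, pow_succ]
      apply le_of_eq
      field_simp

/-- Let at most `k ^ T₁` pairs of a polynomial `f k l` with integer coefficients and an integer `α k l ≥ 1` be given for
every `k`.

**(1)** Let `X k ω < b ^ k` be random integers on a probability space whose laws have exchangeable blocks of digits for all
large `k`, and `c_k` integers with `|c_k| ≤ B b ^ k`. Then almost surely `Always b c M f α X`.

**(2)** For all `b ≥ 2` and integers `c_k` with `|c_k| ≤ B b ^ k`, almost every real number `ξ` in `[0, 1)` has the property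
`Always b c M f α x` with `x_k = [b ^ k ξ]`. -/
theorem result (T₁ : ℕ) (M : ℕ → ℕ) (hM : ∀ k, M k ≤ k ^ T₁) (f : ∀ k, Fin (M k) → Polynomial ℤ)
    (α : ∀ k, Fin (M k) → ℕ) (hα : ∀ k l, 1 ≤ α k l) :
    (∀ (b L : ℕ), 2 ≤ b → 1 ≤ L → ∀ η : ℝ, 0 < η → η ≤ 1 → ∀ (T₀ B : ℕ) (c : ℕ → ℤ), (∀ k, |c k| ≤ B * (b : ℤ) ^ k) →
      ∀ (Ω : Type) [MeasurableSpace Ω] (ν : Measure Ω) [IsProbabilityMeasure ν] (X : ℕ → Ω → ℕ), (∀ k ω, X k ω < b ^ k) →
      (∀ᶠ k : ℕ in atTop, Exchangeable b L η T₀ k fun v => (ν {ω | X k ω = v}).toReal) →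
        ∀ᵐ ω ∂ν, Always b c M f α fun k => X k ω) ∧
    (∀ b : ℕ, 2 ≤ b → ∀ (B : ℕ) (c : ℕ → ℤ), (∀ k, |c k| ≤ B * (b : ℤ) ^ k) →
      ∀ᵐ ξ : ℝ, 0 ≤ ξ → ξ < 1 → Always b c M f α fun k => ⌊(b : ℝ) ^ k * ξ⌋₊) := by
  classical
  have main : ∀ (b L : ℕ), 2 ≤ b → 1 ≤ L → ∀ η : ℝ, 0 < η → η ≤ 1 → ∀ (T₀ B : ℕ) (c : ℕ → ℤ),
      (∀ k, |c k| ≤ B * (b : ℤ) ^ k) →
      ∀ (Ω : Type) [MeasurableSpace Ω] (ν : Measure Ω) [IsProbabilityMeasure ν] (X : ℕ → Ω → ℕ), (∀ k ω, X k ω < b ^ k) →
      (∀ᶠ k : ℕ in atTop, Exchangeable b L η T₀ k fun v => (ν {ω | X k ω = v}).toReal) →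
        ∀ᵐ ω ∂ν, Always b c M f α fun k => X k ω := by
    intro b L hb hL η hη0 hη1 T₀ B c hc Ω _ ν _ X hX hlaw
    have key : ∀ (κ : ℤ) (B' T J W U : ℕ), κ ≠ 0 → ∀ᵐ ω ∂ν, ∀ᶠ k : ℕ in atTop, ∀ q : ℤ,
        |q - (c k + κ * X k ω)| ≤ (k : ℤ) ^ W → ∀ h : ℕ, 1 ≤ h → h ≤ k ^ J →
          Small B' T U (b ^ k) k (f k) (α k) (h * q) := by
      intro κ B' T J W U hκ
      obtain ⟨k₀, h0⟩ := Pool.Agent.Results.MP_d639b3_nt.ExchangeableConstants.result b L hb hL η hη0 hη1 T₀ κ hκ B B'
        (max T T₁) J W (max U 2)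
      obtain ⟨k₁, h1⟩ := eventually_atTop.1 hlaw
      have h2 := Pool.Agent.N84.MD.bc_nat ν (fun k => b ^ k) X hX
        (fun k v => ∀ q : ℤ, |q - (c k + κ * v)| ≤ (k : ℤ) ^ W →
          ∀ h : ℕ, 1 ≤ h → h ≤ k ^ J → Small B' (max T T₁) (max U 2) (b ^ k) k (f k) (α k) (h * q))
        ⟨max (max k₀ k₁) 1, fun k hk => by
          have hk0 : k₀ ≤ k := ((le_max_left _ _).trans (le_max_left _ _)).trans hk
          have hk1 : k₁ ≤ k := ((le_max_right _ _).trans (le_max_left _ _)).trans hk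
          have hk2 : 1 ≤ k := (le_max_right _ _).trans hk
          have hk3 : (1 : ℝ) ≤ k := by exact_mod_cast hk2
          have h3 := h0 k hk0 _ (h1 k hk1) (c k) (hc k) (M k)
            ((hM k).trans (Nat.pow_le_pow_right hk2 (le_max_right _ _))) (f k) (α k) (hα k)
          refine le_trans (le_trans (le_of_eq ?_) h3) ?_
          · refine sum_congr rfl fun v _ => ?_
            split_ifs <;> rfl
          · exact one_div_le_one_div_of_le (by positivity) (pow_le_pow_right₀ hk3 (le_max_right _ _))⟩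
      filter_upwards [h2] with ω hω
      filter_upwards [hω, eventually_ge_atTop 1] with k h3 h4 q hq h hh1 hh2
      exact small_mono h4 (le_max_left _ _) (le_max_left _ _) (h3 q hq h hh1 hh2)
    have hall : ∀ᵐ ω ∂ν, ∀ (κ : ℤ) (B' T J W U : ℕ), κ ≠ 0 → ∀ᶠ k : ℕ in atTop, ∀ q : ℤ,
        |q - (c k + κ * X k ω)| ≤ (k : ℤ) ^ W → ∀ h : ℕ, 1 ≤ h → h ≤ k ^ J →
          Small B' T U (b ^ k) k (f k) (α k) (h * q) := by
      refine ae_all_iff.2 fun κ => ae_all_iff.2 fun B' => ae_all_iff.2 fun T => ae_all_iff.2 fun J =>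
        ae_all_iff.2 fun W => ae_all_iff.2 fun U => ?_
      by_cases hκ : κ = 0
      · exact Filter.Eventually.of_forall fun ω h => absurd hκ h
      · filter_upwards [key κ B' T J W U hκ] with ω hω _
        exact hω
    filter_upwards [hall] with ω hω κ B' T J W U hκ
    exact hω κ B' T J W U hκ
  refine ⟨main, fun b hb B c hc => ?_⟩
  have hb0 : (0 : ℝ) < b := by exact_mod_cast (by omega : 0 < b)
  haveI : IsProbabilityMeasure (volume.restrict (Set.Ico (0 : ℝ) 1)) :=
    ⟨by rw [Measure.restrict_apply_univ, Real.volume_Ico]; norm_num⟩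
  have hpos : ∀ k : ℕ, 0 < b ^ k := fun k => Nat.pow_pos (by omega)
  have h1 := main b 1 hb le_rfl (1 / b) (by positivity) (by
    rw [div_le_one hb0]
    exact_mod_cast (by omega : 1 ≤ b)) 0 B c hc ℝ (volume.restrict (Set.Ico (0 : ℝ) 1))
    (fun k ξ => ⌊((b ^ k : ℕ) : ℝ) * ξ⌋₊ % b ^ k) (fun k ξ => Nat.mod_lt _ (hpos k))
    (Filter.Eventually.of_forall fun k => exch_unif b hb k _ (fun v hv => by
      show ((volume.restrict (Set.Ico (0 : ℝ) 1)) {ξ : ℝ | ⌊((b ^ k : ℕ) : ℝ) * ξ⌋₊ % b ^ k = v}).toReal = _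
      rw [Pool.Agent.N84.MD.unif (b ^ k) (hpos k) v hv, ENNReal.toReal_ofReal (by positivity)]
      push_cast
      rfl) (fun v => ENNReal.toReal_nonneg))
  rw [ae_restrict_iff' measurableSet_Ico] at h1
  filter_upwards [h1] with ξ hξ h2 h3
  have h4 := hξ ⟨h2, h3⟩
  have h5 : (fun k : ℕ => ⌊((b ^ k : ℕ) : ℝ) * ξ⌋₊ % b ^ k) = fun k : ℕ => ⌊(b : ℝ) ^ k * ξ⌋₊ := by
    funext k
    have hbk : (0 : ℝ) < (b : ℝ) ^ k := by positivity
    push_cast
    refine Nat.mod_eq_of_lt ?_
    rw [Nat.floor_lt (by positivity)]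
    push_cast
    nlinarith
  rw [h5] at h4
  exact h4

end Pool.Agent.N84.Shelf.ChowlaNearRealNumbers
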