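import Pool.Agent.N84.MD.D
import Pool.Agent.Results.MP_4b482e_nt.PolynomialsInLogs

/-!
# Exponentials of polynomials in logarithms at all rational approximations of almost every real tuple

For the torus `G = G_m^s` the problem asks whether, for nonzero complex numbers `τ_1, …, τ_s`, the field generated over
`Q̄ (2πi)` by the `τ_i` and the `log τ_i` has transcendence degree at least the dimension `t` of the `ℚ`-space spanned by
the `log τ_i` modulo `2πi ℚ`. Let `Q_1, …, Q_M` be real polynomials in one variable `s` such that no nontrivial integer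
combination of `s, Q_1, …, Q_M` is constant, and take for the `τ_i` the numbers `x_j` and `exp (Q_k (log x_j))`, where
`x_1, …, x_n` are positive rational numbers.

We prove that for all real `n`-tuples `y`, up to a set of Hausdorff dimension less than `n`, for ALL large `T` and ALL
rational `n`-tuples `x` with denominators at most `T` and `|y_j - x_j| ≤ T ^ (-τ)`, where `τ = 2` or even somewhat smaller
(for `τ < 2` and almost all `y` there are such tuples for every large `T`: convergents of the `y_j`), the `n (M + 1) + 1`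
numbers `π`, `log x_j`, `exp (Q_k (log x_j))` satisfy
no polynomial relation, even approximately, of bounded degree with integer coefficients at most `T ^ A`. So the rational
tuples considered are very sparse (for `n = 1` the number of convergents of `y` with denominator at most `T` is
`O(log T)`), and there is no exception from some point on.

Proof: the starting theorem `PolynomialsInLogs` of this problem bounds the number of the exceptional tuples with
denominators at most `T`; the Hausdorff-Cantelli lemma (`Pool.Agent.N84.MD`).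
-/

set_option autoImplicit false

open Set Filter MeasureTheory
open scoped ENNReal

namespace Pool.Agent.N84.Shelf.LogsAtConvergents

open Pool.Agent.Results.MP_4b482e_nt.PolynomialsInLogs (numbers Exceptional)

/-- No nonzero polynomial with integer coefficients of absolute value at most `T ^ A`, of degree at most `d` in each
variable, takes at the `n (M + 1) + 1` numbers `π`, `log x_j`, `exp (Q_k (log x_j))` a value of absolute value at most
`T ^ (-B)`. -/
def Unrelated {M n : ℕ} (d : ℕ) (Q : Fin M → Polynomial ℝ) (A B T : ℝ) (x : Fin n → ℚ) : Prop :=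
  ∀ P : MvPolynomial (Option (Fin n × Option (Fin M))) ℤ, P ≠ 0 → (∀ i, P.degreeOf i ≤ d) →
    (∀ e, |((P.coeff e : ℤ) : ℝ)| ≤ T ^ A) → T ^ (-B) < |MvPolynomial.aeval (numbers Q x) P|

/-- For all large `T` all rational tuples `x` with coordinates in `[a, b]`, denominators at most `T` and
`|y_j - x_j| ≤ T ^ (-τ)` are unrelated at the scale `T`. -/
def AllApproximations {M n : ℕ} (d : ℕ) (Q : Fin M → Polynomial ℝ) (a b A B τ : ℝ) (y : Fin n → ℝ) : Prop :=
  ∀ᶠ T : ℝ in atTop, ∀ x : Fin n → ℚ,
    (∀ j, (x j : ℝ) ∈ Icc a b ∧ ((x j).den : ℝ) ≤ T ∧ |y j - x j| ≤ T ^ (-τ)) → Unrelated d Q A B T x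

/-- Let `[a, b] ⊂ (0, ∞)`, `n ≥ 1`, `d`, `A ≥ 0`, let `Q_1, …, Q_M` be real polynomials in `s` such that `c_0 s + ∑ c_k Q_k`
is not constant for integers `c_0, …, c_M` not all zero, and let `β > 2 - 2 / ((d + 1)^((M + 1) n + 1) + 1)`. There is `B`
such that for all `τ > 0` the property `AllApproximations` holds for all `y` in `ℝⁿ` but a set of Hausdorff dimension at
most `(2 (n - 1) + β) / τ`. For `β < 2` and `τ = 2`, and for some smaller `τ` also, it holds for almost all `y`. -/
theorem result (M n d : ℕ) (hn : 1 ≤ n) (Q : Fin M → Polynomial ℝ)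
    (hQ : ∀ (c0 : ℤ) (c : Fin M → ℤ),
      (Polynomial.C (c0 : ℝ) * Polynomial.X + ∑ k, Polynomial.C (c k : ℝ) * Q k).natDegree = 0 → c0 = 0 ∧ c = 0)
    (A a b β : ℝ) (hA : 0 ≤ A) (ha : 0 < a) (hab : a < b)
    (hβ : 2 - 2 / (((d : ℝ) + 1) ^ ((M + 1) * n + 1) + 1) < β) :
    ∃ B : ℝ, ∀ τ : ℝ, 0 < τ →
      dimH {y : Fin n → ℝ | ¬ AllApproximations d Q a b A B τ y} ≤ ENNReal.ofReal ((2 * ((n : ℝ) - 1) + β) / τ) ∧
      (2 * ((n : ℝ) - 1) + β < τ * n → ∀ᵐ y : Fin n → ℝ, AllApproximations d Q a b A B τ y) := by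
  obtain ⟨B, C, h⟩ := Pool.Agent.Results.MP_4b482e_nt.PolynomialsInLogs.result M n d hn Q hQ A a b β hA ha hab hβ
  have hn1 : (1 : ℝ) ≤ n := by exact_mod_cast hn
  have hβ0 : 0 ≤ β := by
    have h1 : 2 / (((d : ℝ) + 1) ^ ((M + 1) * n + 1) + 1) ≤ 2 := by
      rw [div_le_iff₀ (by positivity)]
      have : (0 : ℝ) ≤ ((d : ℝ) + 1) ^ ((M + 1) * n + 1) := by positivity
      linarith
    linarith
  have hs : 0 ≤ 2 * ((n : ℝ) - 1) + β := by linarith
  refine ⟨max B 0 + 1, fun τ hτ => ?_⟩
  obtain ⟨T₀, hT₀1, hT₀⟩ := Pool.Agent.N84.MD.scale_value (B := B)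
  have hdim := Pool.Agent.N84.MD.scales (X := Fin n) (S := Fin n → ℚ) (fun x j => (x j : ℝ))
    (fun T => Exceptional n d Q a b A (max B 0 + 1) T) (fun T => Exceptional n d Q a b A B T) hs hτ
    ⟨T₀, fun T T' hT h1 h2 x hx => by
      obtain ⟨h3, P, h4, h5, h6, h7⟩ := hx
      have hT1 : 1 ≤ T := hT₀1.trans hT
      exact ⟨fun j => ⟨(h3 j).1, (h3 j).2.trans h1⟩, P, h4, h5, fun e => (h6 e).trans
        (Real.rpow_le_rpow (by linarith) h1 hA), h7.trans (hT₀ T T' hT h1 h2)⟩⟩
    ⟨C, h⟩
  have hsub : {y : Fin n → ℝ | ¬ AllApproximations d Q a b A (max B 0 + 1) τ y} ⊆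
      {y : Fin n → ℝ | ¬ ∀ᶠ T : ℝ in atTop, ∀ e ∈ Exceptional n d Q a b A (max B 0 + 1) T,
        ¬ ∀ i, |y i - (fun (x : Fin n → ℚ) j => (x j : ℝ)) e i| ≤ T ^ (-τ)} := by
    intro y hy hy2
    apply hy
    filter_upwards [hy2] with T hT x hx P hP hd hco
    by_contra hcon
    push Not at hcon
    exact hT x ⟨fun j => ⟨(hx j).1, (hx j).2.1⟩, P, hP, hd, hco, hcon⟩ (fun j => (hx j).2.2)
  have hdim2 := le_trans (dimH_mono hsub) hdim
  refine ⟨hdim2, fun hlt => ?_⟩
  rw [ae_iff]
  refine Pool.Agent.N84.MD.null_of_dim hdim2 (by positivity) ?_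
  rw [div_lt_iff₀ hτ]
  linarith

end Pool.Agent.N84.Shelf.LogsAtConvergents
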